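import Pool.Agent.Work.MP_b5407d_lp.Interface

set_option autoImplicit false
open MeasureTheory Real Filter Topology
open scoped ContDiff

/-!
Block DEN: the range of `L` on test functions is dense in the mean zero functions.
-/

namespace Pool.Agent.Work.LPBM.helper36

open Pool.Agent.Work.LPBM

/-- square root of the weight -/
noncomputable def sw {n : ℕ} (V : E n → ℝ) (x : E n) : ℝ := exp (-V x / 2)

theorem sw_pos {n : ℕ} (V : E n → ℝ) (x : E n) : 0 < sw V x := exp_pos _

theorem sw_mul {n : ℕ} (V : E n → ℝ) (x : E n) : sw V x * sw V x = wt V x := by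
  unfold sw wt
  rw [← exp_add]
  congr 1
  ring

theorem sw_cont {n : ℕ} {V : E n → ℝ} (hV : Continuous V) : Continuous (sw V) := by
  unfold sw
  fun_prop

theorem wt_cont {n : ℕ} {V : E n → ℝ} (hV : Continuous V) : Continuous (wt V) := by
  unfold wt
  fun_prop

theorem pd_contDiff {n : ℕ} {u : E n → ℝ} (hu : ContDiff ℝ ∞ u) (j : Fin n) : ContDiff ℝ ∞ (pd j u) := by
  unfold pd
  have h : ContDiff ℝ ∞ (fderiv ℝ u) := hu.fderiv_right (by simp)
  exact h.clm_apply contDiff_const

theorem pd_cont {n : ℕ} {V : E n → ℝ} (hV : ContDiff ℝ 2 V) (j : Fin n) : Continuous (pd j V) := by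
  unfold pd
  have h : Continuous (fderiv ℝ V) := hV.continuous_fderiv (by norm_num)
  exact h.clm_apply continuous_const

theorem pd_add {n : ℕ} {u v : E n → ℝ} (hu : Differentiable ℝ u) (hv : Differentiable ℝ v) (j : Fin n) :
    pd j (u + v) = pd j u + pd j v := by
  funext x
  simp only [pd, Pi.add_apply]
  rw [fderiv_add (hu x) (hv x)]
  rfl

theorem pd_smul {n : ℕ} {u : E n → ℝ} (hu : Differentiable ℝ u) (c : ℝ) (j : Fin n) :
    pd j (c • u) = c • pd j u := by
  funext x
  simp only [pd, Pi.smul_apply]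
  rw [fderiv_const_smul (hu x) c]
  rfl

theorem Lop_add {n : ℕ} (V : E n → ℝ) {u v : E n → ℝ} (hu : ContDiff ℝ ∞ u) (hv : ContDiff ℝ ∞ v) (x : E n) :
    Lop V (u + v) x = Lop V u x + Lop V v x := by
  unfold Lop
  rw [← Finset.sum_add_distrib]
  refine Finset.sum_congr rfl fun j _ => ?_
  rw [pd_add (hu.differentiable (by simp)) (hv.differentiable (by simp)),
    pd_add ((pd_contDiff hu j).differentiable (by simp)) ((pd_contDiff hv j).differentiable (by simp))]
  simp only [Pi.add_apply]
  ring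

theorem Lop_smul {n : ℕ} (V : E n → ℝ) {u : E n → ℝ} (hu : ContDiff ℝ ∞ u) (c : ℝ) (x : E n) :
    Lop V (c • u) x = c * Lop V u x := by
  unfold Lop
  rw [Finset.mul_sum]
  refine Finset.sum_congr rfl fun j _ => ?_
  rw [pd_smul (hu.differentiable (by simp)), pd_smul ((pd_contDiff hu j).differentiable (by simp))]
  simp only [Pi.smul_apply, smul_eq_mul]
  ring

theorem Lop_cont {n : ℕ} {V : E n → ℝ} (hV : ContDiff ℝ 2 V) {u : E n → ℝ} (hu : ContDiff ℝ ∞ u) :
    Continuous (Lop V u) := by
  unfold Lop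
  refine continuous_finsetSum _ fun j _ => ?_
  exact ((pd_contDiff (pd_contDiff hu j) j).continuous).sub ((pd_cont hV j).mul (pd_contDiff hu j).continuous)

theorem pd_supp {n : ℕ} {u : E n → ℝ} (hu : HasCompactSupport u) (j : Fin n) : HasCompactSupport (pd j u) := by
  have h := hu.fderiv (𝕜 := ℝ)
  exact h.comp_left (g := fun L : E n →L[ℝ] ℝ => L (EuclideanSpace.single j (1 : ℝ))) (by simp)

theorem Lop_supp {n : ℕ} {V : E n → ℝ} {u : E n → ℝ} (hu : HasCompactSupport u) :
    HasCompactSupport (Lop V u) := by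
  have h : ∀ s : Finset (Fin n), HasCompactSupport
      (fun x => ∑ j ∈ s, (pd j (pd j u) x - pd j V x * pd j u x)) := by
    intro s
    induction s using Finset.induction_on with
    | empty =>
      simp only [Finset.sum_empty]
      exact HasCompactSupport.zero
    | insert a s ha ih =>
      simp only [Finset.sum_insert ha]
      refine HasCompactSupport.add ?_ ih
      exact (pd_supp (pd_supp hu a) a).sub ((pd_supp hu a).mul_left)
  exact h Finset.univ

theorem memLp_Lop {n : ℕ} {V : E n → ℝ} (hV : ContDiff ℝ 2 V) {u : E n → ℝ} (hu : Test u) :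
    MemLp (fun x => Lop V u x * sw V x) 2 (volume : Measure (E n)) := by
  refine Continuous.memLp_of_hasCompactSupport ((Lop_cont hV hu.1).mul (sw_cont hV.continuous)) ?_
  exact (Lop_supp hu.2).mul_right

/-- the range of `L` in `L^2` -/
noncomputable def rangeL {n : ℕ} (V : E n → ℝ) : Submodule ℝ (Lp ℝ 2 (volume : Measure (E n))) where
  carrier := {f | ∃ u : E n → ℝ, Test u ∧ f =ᵐ[volume] fun x => Lop V u x * sw V x}
  add_mem' := by
    rintro f g ⟨u, hu, hf⟩ ⟨v, hv, hg⟩
    refine ⟨u + v, ⟨hu.1.add hv.1, hu.2.add hv.2⟩, ?_⟩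
    filter_upwards [Lp.coeFn_add f g, hf, hg] with x h1 h2 h3
    rw [h1, Pi.add_apply, h2, h3, Lop_add V hu.1 hv.1]
    ring
  zero_mem' := by
    refine ⟨0, ⟨contDiff_const, HasCompactSupport.zero⟩, ?_⟩
    filter_upwards [Lp.coeFn_zero ℝ 2 (volume : Measure (E n))] with x h1
    have : Lop V (0 : E n → ℝ) x = 0 := by
      have := Lop_smul V (u := (0 : E n → ℝ)) contDiff_const 0 x
      simpa using this
    rw [h1, this]
    simp
  smul_mem' := by
    rintro c f ⟨u, hu, hf⟩
    refine ⟨c • u, ⟨contDiff_const.smul hu.1, ?_⟩, ?_⟩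
    · exact HasCompactSupport.smul_left (f := fun _ => c) hu.2
    · filter_upwards [Lp.coeFn_smul c f, hf] with x h1 h2
      rw [h1, Pi.smul_apply, h2, Lop_smul V hu.1]
      simp only [smul_eq_mul]
      ring

theorem stmt_DEN (hMOL : Stmt_MOL) (hENE : Stmt_ENE) (hTRA : Stmt_TRA) : Stmt_DEN := by
  intro n V hV hint Y hYm hY2 hY0 ε hε
  have hVc : Continuous V := hV.continuous
  -- `Y w` in `L^2`
  have hYw : MemLp (fun x => Y x * sw V x) 2 (volume : Measure (E n)) := by
    have hm : AEStronglyMeasurable (fun x => Y x * sw V x) (volume : Measure (E n)) :=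
      hYm.mul (sw_cont hVc).aestronglyMeasurable
    rw [memLp_two_iff_integrable_sq hm]
    refine hY2.congr (Eventually.of_forall fun x => ?_)
    simp only
    rw [mul_pow, sq (sw V x), sw_mul]
  set M := rangeL V with hM
  have hmem : hYw.toLp _ ∈ Mᗮᗮ := by
    rw [Submodule.mem_orthogonal]
    intro ψ' hψ'
    rw [Submodule.mem_orthogonal] at hψ'
    set ψ : E n → ℝ := fun x => ψ' x / sw V x with hψ
    have hψm : AEStronglyMeasurable ψ volume :=
      (Lp.aestronglyMeasurable ψ').div₀ (sw_cont hVc).aestronglyMeasurable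
    have hψ2 : Integrable (fun x => (ψ' x) ^ 2) (volume : Measure (E n)) :=
      (memLp_two_iff_integrable_sq (Lp.aestronglyMeasurable ψ')).1 (Lp.memLp ψ')
    have hψw : ∀ x, (ψ x) ^ 2 * wt V x = (ψ' x) ^ 2 := by
      intro x
      simp only [hψ]
      rw [div_pow, ← sw_mul, ← sq]
      have := (sw_pos V x).ne'
      field_simp
    have hψi : Integrable (fun x => (ψ x) ^ 2 * wt V x) := by
      simpa only [hψw] using hψ2
    have hweak : ∀ u : E n → ℝ, Test u → ∫ x, ψ x * Lop V u x * wt V x = 0 := by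
      intro u hu
      have h1 := hψ' ((memLp_Lop hV hu).toLp _) ⟨u, hu, (memLp_Lop hV hu).coeFn_toLp⟩
      rw [L2.inner_def] at h1
      rw [← h1]
      refine integral_congr_ae ?_
      filter_upwards [(memLp_Lop hV hu).coeFn_toLp] with x hx
      rw [hx]
      simp only [hψ, RCLike.inner_apply, conj_trivial]
      rw [← sw_mul]
      have := (sw_pos V x).ne'
      field_simp
    obtain ⟨g, r, hg, hr, heq, hgψ, hr0⟩ := hMOL n V hV ψ hψm hψi hweak
    have hgrad := hENE n V hV ψ hψm hψi g r hg hr heq hgψ hr0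
    have hloc : ∀ ρ : ℝ, IntegrableOn (fun x => (ψ x) ^ 2) (Metric.ball (0 : E n) ρ) volume := by
      intro ρ
      have hcp : IsCompact (Metric.closedBall (0 : E n) ρ) := isCompact_closedBall _ _
      obtain ⟨C, hC⟩ := hcp.exists_bound_of_continuousOn (f := fun x => exp (V x))
        (by fun_prop)
      have h1 : IntegrableOn (fun x => exp (V x) * ((ψ x) ^ 2 * wt V x)) (Metric.ball (0 : E n) ρ) volume := by
        refine Integrable.bdd_mul (c := C) hψi.integrableOn ?_ ?_
        · exact (Continuous.aestronglyMeasurable (by fun_prop))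
        · rw [ae_restrict_iff' measurableSet_ball]
          exact Eventually.of_forall fun x hx => hC x (Metric.ball_subset_closedBall hx)
      refine h1.congr (Eventually.of_forall fun x => ?_)
      simp only [wt]
      rw [mul_comm ((ψ x) ^ 2), ← mul_assoc, ← exp_add]
      simp
    obtain ⟨c, hc⟩ := hTRA n ψ hψm hloc g hg hgψ hgrad
    rw [L2.inner_def]
    have : ∀ᵐ x ∂(volume : Measure (E n)), inner ℝ (ψ' x) ((hYw.toLp _ : Lp ℝ 2 volume) x)
        = c * (Y x * wt V x) := by
      filter_upwards [hc, hYw.coeFn_toLp] with x h1 h2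
      rw [h2]
      simp only [hψ] at h1
      have h3 : ψ' x = c * sw V x := by
        rw [div_eq_iff (sw_pos V x).ne'] at h1
        exact h1
      simp only [RCLike.inner_apply, conj_trivial]
      rw [h3, ← sw_mul]
      ring
    rw [integral_congr_ae this, integral_const_mul, hY0, mul_zero]
  rw [Submodule.orthogonal_orthogonal_eq_closure] at hmem
  have hmem' : hYw.toLp _ ∈ closure (M : Set (Lp ℝ 2 (volume : Measure (E n)))) := hmem
  obtain ⟨m, ⟨u, hu, hmu⟩, hdist⟩ := Metric.mem_closure_iff.1 hmem' (Real.sqrt ε) (Real.sqrt_pos.2 hε)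
  refine ⟨(-1 : ℝ) • u, ⟨contDiff_const.smul hu.1, HasCompactSupport.smul_left (f := fun _ => (-1 : ℝ)) hu.2⟩, ?_⟩
  have hn : ‖hYw.toLp _ - m‖ ^ 2 ≤ ε := by
    rw [← dist_eq_norm]
    have h0 : 0 ≤ dist (hYw.toLp _) m := dist_nonneg
    calc dist (hYw.toLp _) m ^ 2 ≤ Real.sqrt ε ^ 2 := by
          exact pow_le_pow_left₀ h0 hdist.le 2
      _ = ε := Real.sq_sqrt hε.le
  refine le_trans (le_of_eq ?_) hn
  rw [← real_inner_self_eq_norm_sq, L2.inner_def]
  refine integral_congr_ae ?_
  filter_upwards [Lp.coeFn_sub (hYw.toLp _) m, hYw.coeFn_toLp, hmu] with x h1 h2 h3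
  rw [h1, Pi.sub_apply, h2, h3, Lop_smul V hu.1]
  simp only [RCLike.inner_apply, conj_trivial]
  rw [← sw_mul]
  ring

end Pool.Agent.Work.LPBM.helper36
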