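import Pool.Agent.Work.MP_b5407d_lp.Interface

set_option autoImplicit false
open MeasureTheory Real Filter Topology
open scoped ContDiff

/-!
Block DIF: two derivatives under the integral sign.
-/

namespace Pool.Agent.Work.LPBM.helper36

open Pool.Agent.Work.LPBM

section

variable {n : ℕ} {ι : Type} [Fintype ι] {k : ℝ} {θ : ι → E n}

theorem hasDerivAt_W (hG0 : ∀ s : ℝ, HasDerivAt G0 (G1 s) s) (h h1 : ℝ → ι → ℝ) (l η : E n) (s : ℝ)
    (hd : ∀ i, HasDerivAt (fun s => h s i) (h1 s i) s) (x : E n) :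
    HasDerivAt (fun s => W k θ (h s) (l + s • η) x)
      (Yf k θ (h s) (h1 s) η x * W k θ (h s) (l + s • η) x) s := by
  unfold W wt Vpot Upot
  have e1 : HasDerivAt (fun s => ∑ i, G0 (k * (inner ℝ (θ i) x - h s i)))
      (∑ i, G1 (k * (inner ℝ (θ i) x - h s i)) * (k * (-(h1 s i)))) s := by
    refine HasDerivAt.fun_sum fun i _ => ?_
    have e2 : HasDerivAt (fun s => k * (inner ℝ (θ i) x - h s i)) (k * (-(h1 s i))) s := by
      have := ((hd i).const_sub (inner ℝ (θ i) x)).const_mul k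
      simpa using this
    exact (hG0 _).comp s e2
  have e3 : HasDerivAt (fun s : ℝ => inner ℝ (l + s • η) x) (inner ℝ η x) s := by
    have : (fun s : ℝ => inner ℝ (l + s • η) x) = fun s : ℝ => inner ℝ l x + s * inner ℝ η x := by
      funext s
      rw [inner_add_left, real_inner_smul_left]
    rw [this]
    simpa using ((hasDerivAt_id s).mul_const (inner ℝ η x)).const_add (inner ℝ l x)
  have e4 := ((e1.sub e3).neg).exp
  refine e4.congr_deriv ?_
  rw [mul_comm]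
  congr 1
  unfold Yf
  have : ∑ i, G1 (k * (inner ℝ (θ i) x - h s i)) * (k * (-(h1 s i)))
      = -∑ i, k * G1 (k * (inner ℝ (θ i) x - h s i)) * h1 s i := by
    rw [← Finset.sum_neg_distrib]
    exact Finset.sum_congr rfl fun i _ => by ring
  rw [this]
  ring

theorem hasDerivAt_Yf (hG1 : ∀ s : ℝ, HasDerivAt G1 (G2 s) s) (h h1 h2 : ℝ → ι → ℝ) (η : E n) (s : ℝ)
    (hd : ∀ i, HasDerivAt (fun s => h s i) (h1 s i) s)
    (hd1 : ∀ i, HasDerivAt (fun s => h1 s i) (h2 s i) s) (x : E n) :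
    HasDerivAt (fun s => Yf k θ (h s) (h1 s) η x)
      (-(∑ i, k ^ 2 * G2 (k * (inner ℝ (θ i) x - h s i)) * (h1 s i) ^ 2)
        + ∑ i, k * G1 (k * (inner ℝ (θ i) x - h s i)) * h2 s i) s := by
  unfold Yf
  have e1 : HasDerivAt (fun s => ∑ i, k * G1 (k * (inner ℝ (θ i) x - h s i)) * h1 s i)
      (∑ i, (k * (G2 (k * (inner ℝ (θ i) x - h s i)) * (k * (-(h1 s i)))) * h1 s i
        + k * G1 (k * (inner ℝ (θ i) x - h s i)) * h2 s i)) s := by
    refine HasDerivAt.fun_sum fun i _ => ?_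
    have e2 : HasDerivAt (fun s => k * (inner ℝ (θ i) x - h s i)) (k * (-(h1 s i))) s := by
      have := ((hd i).const_sub (inner ℝ (θ i) x)).const_mul k
      simpa using this
    exact (((hG1 _).comp s e2).const_mul k).mul (hd1 i)
  refine (e1.const_add (inner ℝ η x)).congr_deriv ?_
  rw [Finset.sum_add_distrib]
  congr 1
  rw [← Finset.sum_neg_distrib]
  exact Finset.sum_congr rfl fun i _ => by ring

theorem W_nonneg (h : ι → ℝ) (l : E n) (x : E n) : 0 ≤ W k θ h l x := (exp_pos _).le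

theorem cont_W (hG0 : Continuous G0) (h : ι → ℝ) (l : E n) : Continuous (W k θ h l) := by
  unfold W wt Vpot Upot
  fun_prop

theorem cont_Yf (hG1 : Continuous G1) (h f : ι → ℝ) (η : E n) : Continuous (Yf k θ h f η) := by
  unfold Yf
  fun_prop

/-- the bound of `Yf` -/
theorem abs_Yf_le (hk : 0 < k) (hG1 : ∀ s, 0 ≤ G1 s) (hG12 : ∀ s, G1 s ≤ G2 s) (h f : ι → ℝ) (η : E n)
    (H : ℝ) (hH : 0 ≤ H) (hf : ∀ i, |f i| ≤ H) (x : E n) :
    |Yf k θ h f η x| ≤ (‖η‖ + k * H) * (exp ‖x‖ * (1 + ∑ i, G2 (k * (inner ℝ (θ i) x - h i)))) := by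
  have hS : 0 ≤ ∑ i, G2 (k * (inner ℝ (θ i) x - h i)) :=
    Finset.sum_nonneg fun i _ => (hG1 _).trans (hG12 _)
  set S := ∑ i, G2 (k * (inner ℝ (θ i) x - h i)) with hSdef
  have hx : ‖x‖ ≤ exp ‖x‖ := by
    have := add_one_le_exp ‖x‖
    linarith
  have hx1 : 1 ≤ exp ‖x‖ := one_le_exp (norm_nonneg x)
  have h1 : |inner ℝ η x| ≤ ‖η‖ * ‖x‖ := abs_real_inner_le_norm η x
  have h2 : |∑ i, k * G1 (k * (inner ℝ (θ i) x - h i)) * f i| ≤ k * H * S := by
    refine (Finset.abs_sum_le_sum_abs _ _).trans ?_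
    rw [hSdef, Finset.mul_sum]
    refine Finset.sum_le_sum fun i _ => ?_
    rw [abs_mul, abs_mul, abs_of_pos hk, abs_of_nonneg (hG1 _)]
    calc k * G1 (k * (inner ℝ (θ i) x - h i)) * |f i|
        ≤ k * G2 (k * (inner ℝ (θ i) x - h i)) * H := by
          apply mul_le_mul _ (hf i) (abs_nonneg _) (mul_nonneg hk.le ((hG1 _).trans (hG12 _)))
          exact mul_le_mul_of_nonneg_left (hG12 _) hk.le
      _ = k * H * G2 (k * (inner ℝ (θ i) x - h i)) := by ring
  have h3 : |Yf k θ h f η x| ≤ ‖η‖ * ‖x‖ + k * H * S := (abs_add_le _ _).trans (add_le_add h1 h2)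
  refine h3.trans ?_
  have h4 : ‖η‖ * ‖x‖ ≤ ‖η‖ * (exp ‖x‖ * (1 + S)) := by
    apply mul_le_mul_of_nonneg_left _ (norm_nonneg _)
    calc ‖x‖ ≤ exp ‖x‖ * 1 := by linarith
      _ ≤ exp ‖x‖ * (1 + S) := by
        apply mul_le_mul_of_nonneg_left _ (exp_pos _).le
        linarith
  have h5 : k * H * S ≤ k * H * (exp ‖x‖ * (1 + S)) := by
    apply mul_le_mul_of_nonneg_left _ (by positivity)
    calc S ≤ 1 * (1 + S) := by linarith
      _ ≤ exp ‖x‖ * (1 + S) := mul_le_mul_of_nonneg_right hx1 (by linarith)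
  calc ‖η‖ * ‖x‖ + k * H * S ≤ ‖η‖ * (exp ‖x‖ * (1 + S)) + k * H * (exp ‖x‖ * (1 + S)) := add_le_add h4 h5
    _ = _ := by ring

/-- the second integrand -/
noncomputable def Zf (k : ℝ) (θ : ι → E n) (h f g : ι → ℝ) (η : E n) (x : E n) : ℝ :=
  (Yf k θ h f η x) ^ 2 - ∑ i, k ^ 2 * G2 (k * (inner ℝ (θ i) x - h i)) * (f i) ^ 2
    + ∑ i, k * G1 (k * (inner ℝ (θ i) x - h i)) * g i

theorem cont_Zf (hG1 : Continuous G1) (hG2 : Continuous G2) (h f g : ι → ℝ) (η : E n) :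
    Continuous (Zf k θ h f g η) := by
  have := cont_Yf (k := k) (θ := θ) hG1 h f η
  unfold Zf
  fun_prop

theorem abs_Zf_le (hk : 0 < k) (hG1 : ∀ s, 0 ≤ G1 s) (hG12 : ∀ s, G1 s ≤ G2 s) (h f g : ι → ℝ) (η : E n)
    (H : ℝ) (hH : 0 ≤ H) (hf : ∀ i, |f i| ≤ H) (hg : ∀ i, |g i| ≤ H) (x : E n) :
    |Zf k θ h f g η x| ≤ ((‖η‖ + k * H) ^ 2 + k ^ 2 * H ^ 2 + k * H)
      * (exp ‖x‖ * (1 + ∑ i, G2 (k * (inner ℝ (θ i) x - h i)))) ^ 2 := by
  have hS : 0 ≤ ∑ i, G2 (k * (inner ℝ (θ i) x - h i)) :=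
    Finset.sum_nonneg fun i _ => (hG1 _).trans (hG12 _)
  have hY := abs_Yf_le (θ := θ) hk hG1 hG12 h f η H hH hf x
  set S := ∑ i, G2 (k * (inner ℝ (θ i) x - h i)) with hSdef
  have hx1 : 1 ≤ exp ‖x‖ := one_le_exp (norm_nonneg x)
  have hT : 1 ≤ exp ‖x‖ * (1 + S) := by nlinarith
  have hST : S ≤ (exp ‖x‖ * (1 + S)) ^ 2 := by
    calc S ≤ 1 * (1 + S) := by linarith
      _ ≤ exp ‖x‖ * (1 + S) := mul_le_mul_of_nonneg_right hx1 (by linarith)
      _ ≤ (exp ‖x‖ * (1 + S)) ^ 2 := by nlinarith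
  have h1 : |(Yf k θ h f η x) ^ 2| ≤ (‖η‖ + k * H) ^ 2 * (exp ‖x‖ * (1 + S)) ^ 2 := by
    rw [abs_pow, ← mul_pow]
    exact pow_le_pow_left₀ (abs_nonneg _) hY 2
  have h2 : |∑ i, k ^ 2 * G2 (k * (inner ℝ (θ i) x - h i)) * (f i) ^ 2| ≤ k ^ 2 * H ^ 2 * S := by
    refine (Finset.abs_sum_le_sum_abs _ _).trans ?_
    rw [hSdef, Finset.mul_sum]
    refine Finset.sum_le_sum fun i _ => ?_
    have hG2 : 0 ≤ G2 (k * (inner ℝ (θ i) x - h i)) := (hG1 _).trans (hG12 _)
    rw [abs_mul, abs_mul, abs_of_nonneg (sq_nonneg k), abs_of_nonneg hG2, abs_pow]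
    calc k ^ 2 * G2 (k * (inner ℝ (θ i) x - h i)) * |f i| ^ 2
        ≤ k ^ 2 * G2 (k * (inner ℝ (θ i) x - h i)) * H ^ 2 := by
          apply mul_le_mul_of_nonneg_left _ (by positivity)
          exact pow_le_pow_left₀ (abs_nonneg _) (hf i) 2
      _ = k ^ 2 * H ^ 2 * G2 (k * (inner ℝ (θ i) x - h i)) := by ring
  have h3 : |∑ i, k * G1 (k * (inner ℝ (θ i) x - h i)) * g i| ≤ k * H * S := by
    refine (Finset.abs_sum_le_sum_abs _ _).trans ?_
    rw [hSdef, Finset.mul_sum]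
    refine Finset.sum_le_sum fun i _ => ?_
    rw [abs_mul, abs_mul, abs_of_pos hk, abs_of_nonneg (hG1 _)]
    calc k * G1 (k * (inner ℝ (θ i) x - h i)) * |g i|
        ≤ k * G2 (k * (inner ℝ (θ i) x - h i)) * H := by
          apply mul_le_mul _ (hg i) (abs_nonneg _) (mul_nonneg hk.le ((hG1 _).trans (hG12 _)))
          exact mul_le_mul_of_nonneg_left (hG12 _) hk.le
      _ = k * H * G2 (k * (inner ℝ (θ i) x - h i)) := by ring
  unfold Zf
  calc |(Yf k θ h f η x) ^ 2 - ∑ i, k ^ 2 * G2 (k * (inner ℝ (θ i) x - h i)) * (f i) ^ 2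
        + ∑ i, k * G1 (k * (inner ℝ (θ i) x - h i)) * g i|
      ≤ |(Yf k θ h f η x) ^ 2| + |∑ i, k ^ 2 * G2 (k * (inner ℝ (θ i) x - h i)) * (f i) ^ 2|
        + |∑ i, k * G1 (k * (inner ℝ (θ i) x - h i)) * g i| :=
        (abs_add_le _ _).trans (add_le_add_left (abs_sub _ _) _)
    _ ≤ (‖η‖ + k * H) ^ 2 * (exp ‖x‖ * (1 + S)) ^ 2 + k ^ 2 * H ^ 2 * (exp ‖x‖ * (1 + S)) ^ 2
        + k * H * (exp ‖x‖ * (1 + S)) ^ 2 := by
        refine add_le_add (add_le_add h1 (h2.trans ?_)) (h3.trans ?_)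
        · exact mul_le_mul_of_nonneg_left hST (by positivity)
        · exact mul_le_mul_of_nonneg_left hST (by positivity)
    _ = _ := by ring

theorem exists_H (h h1 h2 : ℝ → ι → ℝ) (a b : ℝ) (c0 : ∀ i, ContinuousOn (fun s => h s i) (Set.Icc a b))
    (c1 : ∀ i, ContinuousOn (fun s => h1 s i) (Set.Icc a b))
    (c2 : ∀ i, ContinuousOn (fun s => h2 s i) (Set.Icc a b)) :
    ∃ H : ℝ, 0 ≤ H ∧ ∀ t ∈ Set.Icc a b, (∀ i, |h t i| ≤ H) ∧ (∀ i, |h1 t i| ≤ H) ∧ (∀ i, |h2 t i| ≤ H) := by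
  obtain ⟨H, hH⟩ := (isCompact_Icc (a := a) (b := b)).exists_bound_of_continuousOn
    (f := fun t => ∑ i, (|h t i| + |h1 t i| + |h2 t i|))
    (continuousOn_finsetSum _ fun i _ => (((c0 i).abs).add (c1 i).abs).add (c2 i).abs)
  refine ⟨|H|, abs_nonneg _, fun t ht => ?_⟩
  have hb := (le_abs_self _).trans ((Real.norm_eq_abs _ ▸ hH t ht).trans (le_abs_self H))
  have hle : ∀ i, |h t i| + |h1 t i| + |h2 t i| ≤ |H| := fun i =>
    (Finset.single_le_sum (f := fun i => |h t i| + |h1 t i| + |h2 t i|)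
      (fun i _ => by positivity) (Finset.mem_univ i)).trans hb
  refine ⟨fun i => ?_, fun i => ?_, fun i => ?_⟩ <;>
    have h3 := hle i <;> have a0 := abs_nonneg (h t i) <;> have a1 := abs_nonneg (h1 t i) <;>
    have a2 := abs_nonneg (h2 t i) <;> linarith

end

theorem stmt_DIF (hSW : Stmt_SW0) (hINT : Stmt_INT) : Stmt_DIF := by
  obtain ⟨dG0, dG1, cG2, -, -, pG0, pG1, G12, -⟩ := hSW
  have cG0 : Continuous G0 := continuous_iff_continuousAt.2 fun s => (dG0 s).continuousAt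
  have cG1 : Continuous G1 := continuous_iff_continuousAt.2 fun s => (dG1 s).continuousAt
  intro n ι _ k θ hk hθ h h1 h2 l η s0 hs0 hd hd1 hc2
  set A : ℝ := ‖l‖ + s0 * ‖η‖ + 2 with hA
  -- common majorants near every point
  have key : ∀ s : ℝ, |s| < s0 → ∃ (δ : ℝ) (B : E n → ℝ), 0 < δ ∧ Integrable B ∧
      (∀ t, |t - s| ≤ δ → |t| < s0) ∧
      (∀ t, |t - s| ≤ δ → ∀ x, |W k θ (h t) (l + t • η) x| ≤ B x) ∧
      (∀ t, |t - s| ≤ δ → ∀ x, |Yf k θ (h t) (h1 t) η x * W k θ (h t) (l + t • η) x| ≤ B x) ∧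
      (∀ t, |t - s| ≤ δ → ∀ x, |Zf k θ (h t) (h1 t) (h2 t) η x * W k θ (h t) (l + t • η) x| ≤ B x) := by
    intro s hs
    set δ := (s0 - |s|) / 2 with hδ
    have hδ0 : 0 < δ := by rw [hδ]; linarith
    have hin : ∀ t, |t - s| ≤ δ → |t| < s0 := by
      intro t ht
      have : |t| ≤ |t - s| + |s| := by
        have := abs_add_le (t - s) s
        simpa using this
      linarith
    have hIcc : ∀ t ∈ Set.Icc (s - δ) (s + δ), |t - s| ≤ δ := by
      intro t ht
      rw [abs_le]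
      constructor <;> linarith [ht.1, ht.2]
    obtain ⟨H, hH0, hH⟩ := exists_H h h1 h2 (s - δ) (s + δ)
      (fun i t ht => (hd t (hin t (hIcc t ht)) i).continuousAt.continuousWithinAt)
      (fun i t ht => (hd1 t (hin t (hIcc t ht)) i).continuousAt.continuousWithinAt)
      (fun i => (hc2 i).mono fun t ht => abs_lt.1 (hin t (hIcc t ht)))
    obtain ⟨B, hB, hBle⟩ := hINT n ι θ hθ k k H A hk 2
    set D : ℝ := (‖η‖ + k * H) ^ 2 + k ^ 2 * H ^ 2 + k * H + (‖η‖ + k * H) + 1 with hD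
    have hD0 : 0 ≤ D := by rw [hD]; positivity
    refine ⟨δ, fun x => D * B x, hδ0, hB.const_mul D, hin, ?_⟩
    have common : ∀ t, |t - s| ≤ δ → ∀ x, ∀ Q : ℝ,
        |Q| ≤ D * (exp ‖x‖ * (1 + ∑ i, G2 (k * (inner ℝ (θ i) x - h t i)))) ^ 2 →
        |Q * W k θ (h t) (l + t • η) x| ≤ D * B x := by
      intro t ht x Q hQ
      have hmem : t ∈ Set.Icc (s - δ) (s + δ) := by
        rw [abs_le] at ht
        constructor <;> linarith [ht.1, ht.2]
      obtain ⟨b0, b1, b2⟩ := hH t hmem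
      have hl : ‖l + t • η‖ ≤ A := by
        refine (norm_add_le _ _).trans ?_
        rw [norm_smul, Real.norm_eq_abs, hA]
        have := mul_le_mul_of_nonneg_right (hin t ht).le (norm_nonneg η)
        linarith
      have hW := hBle k (h t) (l + t • η) le_rfl le_rfl b0 hl x
      have hW0 := W_nonneg (k := k) (θ := θ) (h t) (l + t • η) x
      rw [abs_mul, abs_of_nonneg hW0]
      have he : exp ‖x‖ ^ 2 ≤ exp (A * ‖x‖) := by
        rw [← exp_nat_mul]
        apply exp_le_exp.2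
        push_cast
        apply mul_le_mul_of_nonneg_right _ (norm_nonneg x)
        rw [hA]
        have := norm_nonneg l
        have := mul_nonneg hs0.le (norm_nonneg η)
        linarith
      have hS : 0 ≤ ∑ i, G2 (k * (inner ℝ (θ i) x - h t i)) :=
        Finset.sum_nonneg fun i _ => (pG1 _).trans (G12 _)
      calc |Q| * W k θ (h t) (l + t • η) x
          ≤ (D * (exp ‖x‖ * (1 + ∑ i, G2 (k * (inner ℝ (θ i) x - h t i)))) ^ 2)
              * W k θ (h t) (l + t • η) x := mul_le_mul_of_nonneg_right hQ hW0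
        _ = D * (exp ‖x‖ ^ 2 * (1 + ∑ i, G2 (k * (inner ℝ (θ i) x - h t i))) ^ 2
              * W k θ (h t) (l + t • η) x) := by ring
        _ ≤ D * (exp (A * ‖x‖) * (1 + ∑ i, G2 (k * (inner ℝ (θ i) x - h t i))) ^ 2
              * W k θ (h t) (l + t • η) x) := by
            apply mul_le_mul_of_nonneg_left _ hD0
            apply mul_le_mul_of_nonneg_right _ hW0
            exact mul_le_mul_of_nonneg_right he (by positivity)
        _ ≤ D * B x := mul_le_mul_of_nonneg_left hW hD0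
    have hT : ∀ t x, 1 ≤ exp ‖x‖ * (1 + ∑ i, G2 (k * (inner ℝ (θ i) x - h t i))) := by
      intro t x
      have hS : 0 ≤ ∑ i, G2 (k * (inner ℝ (θ i) x - h t i)) :=
        Finset.sum_nonneg fun i _ => (pG1 _).trans (G12 _)
      have hx1 : 1 ≤ exp ‖x‖ := one_le_exp (norm_nonneg x)
      nlinarith
    refine ⟨fun t ht x => ?_, fun t ht x => ?_, fun t ht x => ?_⟩
    · have := common t ht x 1 (by
        rw [abs_one]
        have h1D : 1 ≤ D := by
          rw [hD]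
          have : 0 ≤ (‖η‖ + k * H) ^ 2 + k ^ 2 * H ^ 2 + k * H + (‖η‖ + k * H) := by positivity
          linarith
        have h2T := hT t x
        have : 1 ≤ (exp ‖x‖ * (1 + ∑ i, G2 (k * (inner ℝ (θ i) x - h t i)))) ^ 2 := one_le_pow₀ h2T
        nlinarith)
      simpa using this
    · have hmem : t ∈ Set.Icc (s - δ) (s + δ) := by
        rw [abs_le] at ht
        constructor <;> linarith [ht.1, ht.2]
      obtain ⟨b0, b1, b2⟩ := hH t hmem
      refine common t ht x _ ((abs_Yf_le hk pG1 G12 (h t) (h1 t) η H hH0 b1 x).trans ?_)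
      have h2T := hT t x
      have h3 : exp ‖x‖ * (1 + ∑ i, G2 (k * (inner ℝ (θ i) x - h t i)))
          ≤ (exp ‖x‖ * (1 + ∑ i, G2 (k * (inner ℝ (θ i) x - h t i)))) ^ 2 := by nlinarith
      refine mul_le_mul ?_ h3 (by linarith) hD0
      rw [hD]
      have : 0 ≤ (‖η‖ + k * H) ^ 2 + k ^ 2 * H ^ 2 + k * H := by positivity
      linarith
    · have hmem : t ∈ Set.Icc (s - δ) (s + δ) := by
        rw [abs_le] at ht
        constructor <;> linarith [ht.1, ht.2]
      obtain ⟨b0, b1, b2⟩ := hH t hmem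
      refine common t ht x _ ((abs_Zf_le hk pG1 G12 (h t) (h1 t) (h2 t) η H hH0 b1 b2 x).trans ?_)
      refine mul_le_mul_of_nonneg_right ?_ (by positivity)
      rw [hD]
      have : 0 ≤ ‖η‖ + k * H := by positivity
      linarith
  have hnhds : ∀ (s δ : ℝ), 0 < δ → {t : ℝ | |t - s| ≤ δ} ∈ 𝓝 s := by
    intro s δ hδ
    have := Metric.closedBall_mem_nhds s hδ
    refine Filter.mem_of_superset this fun t ht => ?_
    simpa [Real.dist_eq] using ht
  have dW : ∀ t, |t| < s0 → ∀ x, HasDerivAt (fun s => W k θ (h s) (l + s • η) x)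
      (Yf k θ (h t) (h1 t) η x * W k θ (h t) (l + t • η) x) t := fun t ht x =>
    hasDerivAt_W dG0 h h1 l η t (hd t ht) x
  have dYW : ∀ t, |t| < s0 → ∀ x,
      HasDerivAt (fun s => Yf k θ (h s) (h1 s) η x * W k θ (h s) (l + s • η) x)
      (Zf k θ (h t) (h1 t) (h2 t) η x * W k θ (h t) (l + t • η) x) t := by
    intro t ht x
    refine ((hasDerivAt_Yf dG1 h h1 h2 η t (hd t ht) (hd1 t ht) x).mul (dW t ht x)).congr_deriv ?_
    unfold Zf
    ring
  refine ⟨fun s => ∫ x, Yf k θ (h s) (h1 s) η x * W k θ (h s) (l + s • η) x, ?_, ?_, ?_⟩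
  · intro s hs
    obtain ⟨δ, B, hδ, hB, hin, hW, hYW, hZW⟩ := key s hs
    have hmeas : ∀ t, AEStronglyMeasurable (W k θ (h t) (l + t • η)) volume := fun t =>
      (cont_W cG0 _ _).aestronglyMeasurable
    have hint : Integrable (W k θ (h s) (l + s • η)) :=
      hB.mono' (hmeas s) (Eventually.of_forall fun x => hW s (by simpa using hδ.le) x)
    exact (hasDerivAt_integral_of_dominated_loc_of_deriv_le (hnhds s δ hδ)
      (Eventually.of_forall hmeas) hint
      (((cont_Yf cG1 _ _ _).mul (cont_W cG0 _ _)).aestronglyMeasurable)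
      (Eventually.of_forall fun x t ht => hYW t ht x) hB
      (Eventually.of_forall fun x t ht => dW t (hin t ht) x)).2
  · simp
  · obtain ⟨δ, B, hδ, hB, hin, hW, hYW, hZW⟩ := key 0 (by simpa using hs0)
    have hmeas : ∀ t, AEStronglyMeasurable
        (fun x => Yf k θ (h t) (h1 t) η x * W k θ (h t) (l + t • η) x) volume := fun t =>
      ((cont_Yf cG1 _ _ _).mul (cont_W cG0 _ _)).aestronglyMeasurable
    have hint : Integrable (fun x => Yf k θ (h 0) (h1 0) η x * W k θ (h 0) (l + (0 : ℝ) • η) x) :=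
      hB.mono' (hmeas 0) (Eventually.of_forall fun x => hYW 0 (by simpa using hδ.le) x)
    have := (hasDerivAt_integral_of_dominated_loc_of_deriv_le (hnhds 0 δ hδ)
      (Eventually.of_forall hmeas) hint
      (((cont_Zf cG1 cG2 _ _ _ _).mul (cont_W cG0 _ _)).aestronglyMeasurable)
      (Eventually.of_forall fun x t ht => hZW t ht x) hB
      (Eventually.of_forall fun x t ht => dYW t (hin t ht) x)).2
    refine this.congr_deriv ?_
    simp only [zero_smul, add_zero]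
    rfl

end Pool.Agent.Work.LPBM.helper36
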