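import Pool.Agent.Work.MP_b5407d_lp.Interface

set_option autoImplicit false
open MeasureTheory Real Filter Topology

/-!
Block INT0: a majorant for all `k ≥ 1`.
-/

namespace Pool.Agent.Work.LPBM.helper36

open Pool.Agent.Work.LPBM

theorem stmt_INT0 (hSW : Stmt_SW0) (hINT : Stmt_INT) : Stmt_INT0 := by
  obtain ⟨-, -, -, -, -, pG0, -, -, -, -, -, mG0, -⟩ := hSW
  intro n ι _ θ hθ H A
  obtain ⟨B, hB, hle⟩ := hINT n ι θ hθ 1 1 H (max A 0) one_pos 0
  refine ⟨B, hB, fun k h l hk hh hl x => ?_⟩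
  have h1 := hle 1 h l le_rfl le_rfl hh (hl.trans (le_max_left _ _)) x
  rw [pow_zero, mul_one] at h1
  have h2 : Upot 1 θ h x ≤ Upot k θ h x := by
    unfold Upot
    refine Finset.sum_le_sum fun i _ => ?_
    by_cases hs : 0 ≤ inner ℝ (θ i) x - h i
    · apply mG0
      nlinarith
    · push Not at hs
      have : G0 (1 * (inner ℝ (θ i) x - h i)) = 0 := by
        unfold G0
        rw [if_pos (by linarith)]
      rw [this]
      exact pG0 _
  have h3 : W k θ h l x ≤ W 1 θ h l x := by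
    unfold W wt Vpot
    apply exp_le_exp.2
    linarith
  have h4 : (0 : ℝ) ≤ W 1 θ h l x := (exp_pos _).le
  have h5 : 1 ≤ exp (max A 0 * ‖x‖) := one_le_exp (mul_nonneg (le_max_right _ _) (norm_nonneg _))
  calc W k θ h l x ≤ W 1 θ h l x := h3
    _ = 1 * W 1 θ h l x := (one_mul _).symm
    _ ≤ exp (max A 0 * ‖x‖) * W 1 θ h l x := mul_le_mul_of_nonneg_right h5 h4
    _ ≤ B x := h1

end Pool.Agent.Work.LPBM.helper36
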